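import Mathlib

namespace Pool.Agent.Results.MP_424b19_co.Differ

open Finset

variable {V : Type} [Fintype V] [DecidableEq V] (G : SimpleGraph V) [DecidableRel G.Adj]

/-- One toppling: a vertex `v` holding at least `deg v` tokens sends one token to each neighbour. -/
def Topple (c c' : V → ℕ) : Prop :=
  ∃ v, G.degree v ≤ c v ∧
    c' = fun y => (if y = v then c y - G.degree v else c y) + (if G.Adj v y then 1 else 0)

/-- Starting from `c`, the toppling phase stops at `c'` (no vertex of `c'` is ready). -/
def Settles (c c' : V → ℕ) : Prop :=
  Relation.ReflTransGen (Topple G) c c' ∧ ∀ v, c' v < G.degree v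

/-- Put one new token on `v`. -/
def put (c : V → ℕ) (v : V) : V → ℕ := fun y => if y = v then c y + 1 else c y

/-- `Ends G k t c`: from configuration `c`, with Max to move iff `t = true`, Min can force the game
to be over within `k` turns. A turn whose toppling phase does not stop ends the game. -/
def Ends : ℕ → Bool → (V → ℕ) → Prop
  | 0, _, _ => False
  | k + 1, true, c => ∀ v c', Settles G (put c v) c' → Ends k false c'
  | k + 1, false, c => ∃ v, ∀ c', Settles G (put c v) c' → Ends k true c'

/-- The value of the toppling game from the empty configuration; `first = true` means Max starts. -/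
noncomputable def value (first : Bool) : ℕ := sInf {k | Ends G k first fun _ => 0}

variable {G}

lemma sum_put (c : V → ℕ) (v : V) : ∑ y, put c v y = ∑ y, c y + 1 := by
  have : ∀ y, put c v y = c y + if y = v then 1 else 0 := by
    intro y; unfold put; split_ifs <;> rfl
  simp [this, sum_add_distrib]

lemma lap {c c' : V → ℕ} (h : Relation.ReflTransGen (Topple G) c c') :
    ∑ y, c' y = ∑ y, c y ∧
      ∃ x : V → ℤ, ∀ y, (c' y : ℤ) = c y - ∑ z ∈ G.neighborFinset y, (x y - x z) := by
  induction h with
  | refl => exact ⟨rfl, 0, by simp⟩
  | @tail b d _ h ih =>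
    obtain ⟨v, hv, rfl⟩ := h
    obtain ⟨ih1, x, hx⟩ := ih
    constructor
    · rw [← ih1, sum_add_distrib]
      have h1 : ∑ y, (if G.Adj v y then 1 else 0) = G.degree v := by
        rw [← card_filter, ← SimpleGraph.neighborFinset_eq_filter]; rfl
      have h2 : ∑ y, (if y = v then b y - G.degree v else b y) + G.degree v = ∑ y, b y := by
        have : ∀ y, b y = (if y = v then b y - G.degree v else b y) +
            if y = v then G.degree v else 0 := by
          intro y; split_ifs with e
          · subst e; omega
          · rfl
        rw [sum_congr rfl fun y _ => this y, sum_add_distrib]; simp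
      omega
    · refine ⟨fun y => x y + if y = v then 1 else 0, fun y => ?_⟩
      have e1 : ∑ z ∈ G.neighborFinset y, ((x y + if y = v then 1 else 0) -
          (x z + if z = v then 1 else 0)) = ∑ z ∈ G.neighborFinset y, (x y - x z) +
          (if y = v then (G.degree y : ℤ) else 0) - (if G.Adj v y then 1 else 0) := by
        have : ∀ z, ((x y + if y = v then 1 else 0) - (x z + if z = v then 1 else 0)) =
          (x y - x z) + (if y = v then 1 else 0) - (if z = v then 1 else 0) := by intro z; ring
        simp only [this, sum_sub_distrib, sum_add_distrib, sum_ite_eq', sum_const,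
          SimpleGraph.mem_neighborFinset, SimpleGraph.card_neighborFinset_eq_degree, G.adj_comm y v]
        split_ifs <;> simp
      rw [e1]
      have := hx y
      by_cases e : y = v
      · subst e; simp only [if_true, G.irrefl, if_false]; push_cast [Nat.cast_sub hv]; linarith
      · simp only [e, if_false]; split_ifs <;> push_cast <;> linarith

lemma bridge (hc : G.Connected) {a b : V} (hab : G.Adj a b) (x : V → ℤ)
    (hx : ∀ y, ∑ z ∈ G.neighborFinset y, (x y - x z) =
      (if y = a then 1 else 0) - (if y = b then 1 else 0)) : G.IsBridge s(a, b) := by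
  haveI := hc.nonempty
  obtain ⟨m, hm⟩ := Finite.exists_max x
  have nn : ∀ y, x y = x m → ∀ z ∈ G.neighborFinset y, 0 ≤ x y - x z := by
    intro y hy z _; have := hm z; linarith
  have hb : x b ≠ x m := by
    intro e
    have := sum_nonneg (nn b e)
    rw [hx, if_neg hab.ne.symm] at this; simp at this
  have cl : ∀ y z, x y = x m → y ≠ a → G.Adj y z → x z = x m := by
    intro y z hy hya hz
    have hyb : y ≠ b := by rintro rfl; exact hb hy
    have h0 := hx y
    rw [if_neg hya, if_neg hyb, sub_self, sum_eq_zero_iff_of_nonneg (nn y hy)] at h0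
    have := h0 z (by simpa using hz); linarith
  have ha : x a = x m := by
    by_contra ha
    obtain ⟨p⟩ := hc.preconnected m b
    have : ∀ {u w : V} (_ : G.Walk u w), x u = x m → x w = x m := by
      intro u w p
      induction p with
      | nil => exact id
      | cons h _ ih => exact fun hu => ih (cl _ _ hu (by rintro rfl; exact ha hu) h)
    exact hb (this p rfl)
  rw [SimpleGraph.isBridge_iff]
  rintro ⟨p⟩
  have : ∀ {u w : V} (_ : (G.deleteEdges {s(a, b)}).Walk u w), x u = x m → x w = x m := by
    intro u w p
    induction p with
    | nil => exact id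
    | @cons u z w h _ ih =>
      intro hu
      apply ih
      rw [SimpleGraph.deleteEdges_adj] at h
      by_cases e : u = a
      · subst e
        have hzb : z ≠ b := by rintro rfl; exact h.2 rfl
        by_contra hz
        have h1 := hx u
        rw [if_pos rfl, if_neg hab.ne] at h1
        have h2 : ∑ t ∈ ({z, b} : Finset V), (x u - x t) ≤
            ∑ t ∈ G.neighborFinset u, (x u - x t) := by
          apply sum_le_sum_of_subset_of_nonneg
          · intro t ht
            simp only [mem_insert, mem_singleton] at ht
            rcases ht with rfl | rfl <;> simp [h.1, hab]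
          · intro t ht _; exact nn u hu t ht
        rw [sum_pair hzb] at h2
        have := lt_of_le_of_ne (hm z) hz
        have := lt_of_le_of_ne (hm b) hb
        omega
      · exact cl _ _ hu e h.1
  exact hb (this p ha)

lemma st_le {c : V → ℕ} (h : ∀ v, c v < G.degree v) : ∑ y, c y ≤ ∑ y, (G.degree y - 1) :=
  sum_le_sum fun y _ => by have := h y; omega

lemma st_eq {c : V → ℕ} (h : ∀ v, c v < G.degree v) (e : ∑ y, c y = ∑ y, (G.degree y - 1)) (v : V) :
    c v = G.degree v - 1 :=
  (sum_eq_sum_iff_of_le fun y _ => by have := h y; omega).1 e v (mem_univ v)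

lemma sett {c c' : V → ℕ} {v : V} (h : Settles G (put c v) c') : ∑ y, c' y = ∑ y, c y + 1 := by
  rw [(lap h.1).1, sum_put]

lemma endC [Nonempty V] : ∀ (k : ℕ) (t : Bool) (c : V → ℕ),
    ∑ y, c y + k = ∑ y, (G.degree y - 1) → Ends G (k + 1) t c := by
  intro k
  induction k with
  | zero =>
    intro t c h
    have : ∀ v c', Settles G (put c v) c' → False := by
      intro v c' hs
      have := sett hs; have := st_le hs.2; omega
    cases t with
    | true => exact this
    | false => exact ⟨Classical.arbitrary V, this _⟩
  | succ k ih =>
    intro t c h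
    have : ∀ s v c', Settles G (put c v) c' → Ends G (k + 1) s c' := fun s v c' hs =>
      ih _ _ (by have := sett hs; omega)
    cases t with
    | true => exact this _
    | false => exact ⟨Classical.arbitrary V, this _ _⟩

lemma endB (hc : G.Connected) (hn : ¬ G.IsAcyclic) : ∀ (k : ℕ) (t : Bool) (c : V → ℕ),
    ∑ y, c y + (k + 1) = ∑ y, (G.degree y - 1) → (t = true ↔ k % 2 = 1) → Ends G (k + 1) t c := by
  haveI := hc.nonempty
  intro k
  induction k with
  | zero =>
    intro t c h ht
    cases t with
    | true => simp at ht
    | false =>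
      by_contra hh
      apply hn
      rw [SimpleGraph.isAcyclic_iff_forall_adj_isBridge]
      intro a b hab
      have ex : ∀ v, ∃ c', Settles G (put c v) c' := by
        intro v
        by_contra h'
        exact hh ⟨v, fun c' hs => h' ⟨c', hs⟩⟩
      obtain ⟨ca, ha⟩ := ex a
      obtain ⟨cb, hb⟩ := ex b
      obtain ⟨xa, hxa⟩ := (lap ha.1).2
      obtain ⟨xb, hxb⟩ := (lap hb.1).2
      refine bridge hc hab (fun y => xa y - xb y) fun y => ?_
      have e1 := st_eq ha.2 (by rw [sett ha]; omega) y
      have e2 := st_eq hb.2 (by rw [sett hb]; omega) y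
      have f1 := hxa y
      have f2 := hxb y
      rw [e1] at f1; rw [e2] at f2
      have : ∑ z ∈ G.neighborFinset y, ((xa y - xb y) - (xa z - xb z)) =
          ∑ z ∈ G.neighborFinset y, (xa y - xa z) - ∑ z ∈ G.neighborFinset y, (xb y - xb z) := by
        rw [← sum_sub_distrib]; exact sum_congr rfl fun z _ => by ring
      rw [this]
      unfold put at f1 f2
      split_ifs at f1 f2 ⊢ <;> push_cast at f1 f2 <;> linarith
  | succ k ih =>
    intro t c h ht
    cases t with
    | true => exact fun v c' hs => ih _ _ (by have := sett hs; omega) (by simp at ht ⊢; omega)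
    | false =>
      exact ⟨Classical.arbitrary V, fun c' hs =>
        ih _ _ (by have := sett hs; omega) (by simp at ht ⊢; omega)⟩

lemma endA : ∀ (k : ℕ) (t : Bool) (c : V → ℕ), (∀ v, c v < G.degree v) →
    ∑ y, c y + (k + 1) ≤ ∑ y, (G.degree y - 1) → (t = true ↔ k % 2 = 0) →
    Ends G (k + 1) t c → Ends G k t c := by
  intro k
  induction k with
  | zero =>
    intro t c hs h ht he
    cases t with
    | false => simp at ht
    | true =>
      obtain ⟨v, -, hv⟩ := exists_lt_of_sum_lt (s := univ) (f := c) (g := fun y => G.degree y - 1)
        (by omega)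
      refine he v (put c v) ⟨.refl, fun y => ?_⟩
      unfold put; split_ifs with e
      · subst e; omega
      · exact hs y
  | succ k ih =>
    intro t c hs h ht he
    cases t with
    | true =>
      exact fun v c' h' => ih _ _ h'.2 (by have := sett h'; omega) (by simp at ht ⊢; omega)
        (he v c' h')
    | false =>
      obtain ⟨v, hv⟩ := he
      exact ⟨v, fun c' h' => ih _ _ h'.2 (by have := sett h'; omega) (by simp at ht ⊢; omega)
        (hv c' h')⟩

variable (G)

theorem result (hc : G.Connected) (hn : ¬ G.IsTree) : value G true ≠ value G false := by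
  haveI := hc.nonempty
  have hn : ¬ G.IsAcyclic := fun h => hn ⟨hc, h⟩
  intro e
  have hd : ∀ v, 0 < G.degree v := by
    intro v
    by_contra h0
    apply hn
    have : ∀ w, w = v := by
      intro w
      obtain ⟨p⟩ := hc.preconnected v w
      cases p with
      | nil => rfl
      | cons h _ => exact absurd h.degree_pos_left h0
    haveI : Subsingleton V := ⟨fun a b => (this a).trans (this b).symm⟩
    exact SimpleGraph.IsAcyclic.of_subsingleton
  have mem : ∀ t, Ends G (value G t) t fun _ => 0 := fun t =>
    Nat.sInf_mem (s := {k | Ends G k t fun _ => 0}) ⟨_, endC _ t _ (by simp; rfl)⟩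
  have le : ∀ t k, Ends G k t (fun _ => 0) → value G t ≤ k := fun t k h => Nat.sInf_le h
  obtain ⟨M, hM⟩ : ∃ M, ∑ y, (G.degree y - 1) = M + 1 := by
    by_contra h
    have h0 : ∑ y, (G.degree y - 1) = 0 := by
      by_contra h1
      exact h ⟨_, (Nat.succ_pred_eq_of_pos (Nat.pos_of_ne_zero h1)).symm⟩
    apply hn
    intro v p hp
    have h1 := (sum_eq_zero_iff.1 h0) v (mem_univ v)
    have h2 : ({p.snd, p.penultimate} : Finset V) ⊆ G.neighborFinset v := by
      intro t ht
      simp only [mem_insert, mem_singleton] at ht
      rcases ht with rfl | rfl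
      · simpa using p.adj_snd hp.not_nil
      · simpa using (p.adj_penultimate hp.not_nil).symm
    have h3 := card_le_card h2
    rw [card_pair hp.snd_ne_penultimate, SimpleGraph.card_neighborFinset_eq_degree] at h3
    omega
  have hle : value G true ≤ M + 1 := by
    by_cases h : M % 2 = 1
    · exact le _ _ (endB hc hn M true _ (by simp [hM]) (by simp [h]))
    · rw [e]; exact le _ _ (endB hc hn M false _ (by simp [hM]) (by simp [h]))
  obtain ⟨k, hk⟩ : ∃ k, value G true = k + 1 := by
    have := mem true
    cases h : value G true with
    | zero => rw [h] at this; exact this.elim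
    | succ k => exact ⟨k, rfl⟩
  by_cases h : k % 2 = 0
  · have := le _ _ (endA k true _ hd (by simp [hM]; omega) (by simp [h]) (hk ▸ mem true))
    omega
  · have := le _ _ (endA k false _ hd (by simp [hM]; omega) (by simp [h])
      (by rw [← hk, e]; exact mem false))
    omega

end Pool.Agent.Results.MP_424b19_co.Differ
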